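import Pool.Agent.Helper24.KK.GoalsA

/-! Packet PTW of project KK (MP_9a4587_an, helper24): the pointwise identity for dependent
maps. -/

set_option autoImplicit false

namespace Pool.Agent.Helper69.KK

open Pool.Agent.Helper24.KK

theorem size_bound {p q M B i a c : ℕ} (_hp : 0 < p) (hq : 0 < q) (hi : i < M + B)
    (ha : a ≤ p * (B + q)) (hc : c ≤ p * (B + q) + M) :
    i + a + c < (4 * p * q + 4) * (M + B) := by
  have h1 : p * B ≤ p * q * (M + B) := by
    calc p * B ≤ p * (M + B) := Nat.mul_le_mul_left _ (Nat.le_add_left _ _)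
      _ = p * 1 * (M + B) := by ring
      _ ≤ p * q * (M + B) := Nat.mul_le_mul_right _ (Nat.mul_le_mul_left _ hq)
  have h2 : p * q ≤ p * q * (M + B) := Nat.le_mul_of_pos_right _ (by omega)
  have h3 : (4 * p * q + 4) * (M + B) = 4 * (p * q * (M + B)) + 4 * (M + B) := by ring
  have h4 : p * (B + q) = p * B + p * q := by ring
  rw [h3]
  rw [h4] at ha hc
  omega

theorem div_bound {q B j b : ℕ} (hj : j < q) (hb : b < B) : (j + b) / q ≤ B + q :=
  (Nat.div_le_self _ _).trans (by omega)

theorem upos_eq {p q M B n : ℕ} (hp : 0 < p) (hq : 0 < q) (hn : n < M)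
    (m : Fin (M + B) × Fin q) :
    ((upos p q M B n m).1 : ℕ) = m.1.1 + p * (B + q) + n ∧ (upos p q M B n m).2 = m.2 := by
  refine ⟨?_, rfl⟩
  unfold upos
  simp only
  refine Nat.mod_eq_of_lt ?_
  exact size_bound hp hq m.1.2 le_rfl (by omega)

theorem vpos_true {p q M B b : ℕ} (hp : 0 < p) (hq : 0 < q) (hb : b < B)
    (m : Fin (M + B) × Fin q) :
    ((vpos true p q M B b m).1 : ℕ) = m.1.1 + p * (B + q) + p * ((m.2.1 + b) / q) ∧
      ((vpos true p q M B b m).2 : ℕ) = (m.2.1 + b) % q := by
  refine ⟨?_, rfl⟩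
  unfold vpos
  simp only [if_true]
  refine Nat.mod_eq_of_lt ?_
  refine size_bound hp hq m.1.2 le_rfl ?_
  have := Nat.mul_le_mul_left p (div_bound m.2.2 hb)
  omega

theorem vpos_false {p q M B b : ℕ} (hp : 0 < p) (hq : 0 < q)
    (m : Fin (M + B) × Fin q) :
    ((vpos false p q M B b m).1 : ℕ) = m.1.1 + p * (B + q) - p * ((m.2.1 + b) / q) ∧
      ((vpos false p q M B b m).2 : ℕ) = (m.2.1 + b) % q := by
  refine ⟨?_, rfl⟩
  unfold vpos
  simp only [Bool.false_eq_true, if_false]
  refine Nat.mod_eq_of_lt ?_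
  have := size_bound (i := m.1.1) (a := p * (B + q)) (c := 0) hp hq m.1.2 le_rfl (by omega)
  omega

theorem ptw : PTW := by
  intro sg p q M B hp hq α T S hTS hdep f g hf hg z
  have hc : Function.Commute T S := hTS
  refine ⟨fun s => f (T^[s.1.1] (S^[s.2.1] z)), fun s => g (T^[s.1.1] (S^[s.2.1] z)),
    fun s => hf _, fun s => hg _, fun m => ⟨fun n hn => ?_, fun b hb => ?_⟩⟩
  · obtain ⟨h1, h2⟩ := upos_eq (B := B) hp hq hn m
    simp only
    rw [h1, h2, ← Function.iterate_add_apply, Nat.add_comm n]
  · -- the second identity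
    have hcomm : ∀ (a c : ℕ) (w : α), S^[a] (T^[c] w) = T^[c] (S^[a] w) := fun a c w =>
      ((hc.iterate_iterate c a).eq w).symm
    have hsplit : m.2.1 + b = q * ((m.2.1 + b) / q) + (m.2.1 + b) % q :=
      (Nat.div_add_mod _ _).symm
    have key : S^[b] (T^[m.1.1 + p * (B + q)] (S^[m.2.1] z)) =
        T^[m.1.1 + p * (B + q)] (S^[q * ((m.2.1 + b) / q)] (S^[(m.2.1 + b) % q] z)) := by
      rw [hcomm, ← Function.iterate_add_apply, ← Function.iterate_add_apply, Nat.add_comm b,
        ← hsplit]
    simp only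
    rw [key]
    cases sg with
    | true =>
      have hd : T^[p] = S^[q] := by
        funext w
        have := hdep w
        simpa using this
      obtain ⟨h1, h2⟩ := vpos_true hp hq hb m
      rw [h1, h2, Function.iterate_add_apply T (m.1.1 + p * (B + q)), Function.iterate_mul S q,
        Function.iterate_mul T p, hd]
    | false =>
      have hd : T^[p] ∘ S^[q] = id := by
        funext w
        have := hdep w
        simpa using this
      have hd2 : ∀ s w, T^[p * s] (S^[q * s] w) = w := by
        intro s w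
        have e1 : (T^[p] ∘ S^[q])^[s] w = w := by
          rw [hd, Function.iterate_id]
          rfl
        rw [(hc.iterate_iterate p q).comp_iterate] at e1
        rw [Function.iterate_mul, Function.iterate_mul]
        exact e1
      obtain ⟨h1, h2⟩ := vpos_false (M := M) (B := B) (b := b) hp hq m
      have hle : p * ((m.2.1 + b) / q) ≤ m.1.1 + p * (B + q) := by
        have := Nat.mul_le_mul_left p (div_bound m.2.2 hb)
        omega
      rw [h1, h2]
      obtain ⟨e, he⟩ := Nat.exists_eq_add_of_le hle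
      rw [he, Nat.add_sub_cancel_left, Nat.add_comm (p * ((m.2.1 + b) / q)) e,
        Function.iterate_add_apply T e, hd2]

end Pool.Agent.Helper69.KK
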